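import Mathlib

/-!
# Elementary inequalities for several sequences with values in `[0, 1]`
-/

open Finset

namespace Pool.Agent.U112.DS

/-- the sharp lower bound for the second elementary symmetric function on the cube -/
lemma esymm_two {ι : Type*} (s : Finset ι) (x : ι → ℝ) (h0 : ∀ i ∈ s, 0 ≤ x i)
    (h1 : ∀ i ∈ s, x i ≤ 1) (q : ℤ) :
    0 ≤ (∑ i ∈ s, x i) ^ 2 - ∑ i ∈ s, x i ^ 2 - 2 * q * ∑ i ∈ s, x i + q * (q + 1) := by
  classical
  induction s using Finset.induction_on generalizing q with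
  | empty =>
    simp only [sum_empty]
    have : (0 : ℤ) ≤ q * (q + 1) := by
      rcases le_or_gt 0 q with h | h
      · positivity
      · have h2 : q + 1 ≤ 0 := by omega
        exact mul_nonneg_of_nonpos_of_nonpos h.le h2
    have h3 : (0 : ℝ) ≤ q * (q + 1) := by exact_mod_cast this
    simpa using h3
  | insert a s ha ih =>
    have i1 := ih (fun i hi => h0 i (mem_insert_of_mem hi)) (fun i hi => h1 i (mem_insert_of_mem hi)) q
    have i2 := ih (fun i hi => h0 i (mem_insert_of_mem hi)) (fun i hi => h1 i (mem_insert_of_mem hi))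
      (q - 1)
    have a0 := h0 a (mem_insert_self a s)
    have a1 := h1 a (mem_insert_self a s)
    rw [sum_insert ha, sum_insert ha]
    push_cast at i2
    set S := ∑ i ∈ s, x i
    set Q := ∑ i ∈ s, x i ^ 2
    have e : (x a + S) ^ 2 - (x a ^ 2 + Q) - 2 * q * (x a + S) + q * (q + 1) =
        (1 - x a) * (S ^ 2 - Q - 2 * q * S + q * (q + 1)) +
        x a * (S ^ 2 - Q - 2 * (q - 1) * S + (q - 1) * (q - 1 + 1)) := by ring
    rw [e]
    exact add_nonneg (mul_nonneg (by linarith) i1) (mul_nonneg a0 i2)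

/-- the sum over the ordered pairs of different indices -/
lemma sum_offdiag {m : ℕ} (x : Fin m → ℝ) :
    ∑ i, ∑ j ∈ univ.erase i, x i * x j = (∑ i, x i) ^ 2 - ∑ i, x i ^ 2 := by
  classical
  have h : ∀ i : Fin m, ∑ j ∈ univ.erase i, x i * x j = x i * ∑ j, x j - x i ^ 2 := by
    intro i
    rw [← Finset.mul_sum, ← Finset.add_sum_erase univ x (mem_univ i)]
    ring
  rw [Finset.sum_congr rfl (fun i _ => h i), Finset.sum_sub_distrib, ← Finset.sum_mul]
  ring

/-- many pairs -/
lemma pairs_seq {m : ℕ} (N : ℕ) (f : Fin m → ℕ → ℝ) (h0 : ∀ i k, 0 ≤ f i k)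
    (h1 : ∀ i k, f i k ≤ 1) {p : ℝ} (hp : ∀ i, p * N ≤ ∑ k ∈ range N, f i k) (q : ℕ) :
    (2 * q * (m * p) - q * (q + 1)) * N ≤
      ∑ i, ∑ j ∈ univ.erase i, ∑ k ∈ range N, f i k * f j k := by
  classical
  have e1 : ∑ i, ∑ j ∈ univ.erase i, ∑ k ∈ range N, f i k * f j k =
      ∑ k ∈ range N, ((∑ i, f i k) ^ 2 - ∑ i, f i k ^ 2) := by
    have h2 : ∀ i : Fin m, ∑ j ∈ univ.erase i, ∑ k ∈ range N, f i k * f j k =
        ∑ k ∈ range N, ∑ j ∈ univ.erase i, f i k * f j k := fun i => Finset.sum_comm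
    rw [Finset.sum_congr rfl (fun i _ => h2 i), Finset.sum_comm]
    exact Finset.sum_congr rfl fun k _ => sum_offdiag (fun i => f i k)
  rw [e1]
  have h3 : ∀ k ∈ range N, 2 * (q : ℝ) * ∑ i, f i k - q * (q + 1) ≤
      (∑ i, f i k) ^ 2 - ∑ i, f i k ^ 2 := by
    intro k _
    have := esymm_two univ (fun i => f i k) (fun i _ => h0 i k) (fun i _ => h1 i k) q
    push_cast at this
    linarith
  refine le_trans ?_ (Finset.sum_le_sum h3)
  rw [Finset.sum_sub_distrib, ← Finset.mul_sum, Finset.sum_const, card_range, nsmul_eq_mul,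
    Finset.sum_comm]
  have h4 : (m : ℝ) * (p * N) ≤ ∑ i : Fin m, ∑ k ∈ range N, f i k := by
    calc (m : ℝ) * (p * N) = ∑ _i : Fin m, p * N := by
          rw [Finset.sum_const, card_univ, Fintype.card_fin, nsmul_eq_mul]
      _ ≤ _ := Finset.sum_le_sum fun i _ => hp i
  have hq : (0 : ℝ) ≤ 2 * q := by positivity
  have h5 := mul_le_mul_of_nonneg_left h4 hq
  calc (2 * (q : ℝ) * (m * p) - q * (q + 1)) * N = 2 * q * (m * (p * N)) - N * (q * (q + 1)) := by
        ring
    _ ≤ _ := by linarith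

/-- the pairs of different indices, each counted once -/
lemma sum_Ioi {m : ℕ} (a : Fin m → Fin m → ℝ) (ha : ∀ i j, a i j = a j i) :
    ∑ i, ∑ j ∈ univ.erase i, a i j = 2 * ∑ i, ∑ j ∈ Ioi i, a i j := by
  classical
  have h1 : ∀ i : Fin m, ∑ j ∈ univ.erase i, a i j = ∑ j ∈ Iio i, a i j + ∑ j ∈ Ioi i, a i j := by
    intro i
    rw [← Finset.sum_union]
    · apply Finset.sum_congr _ (fun _ _ => rfl)
      ext j
      simp only [mem_erase, mem_univ, and_true, mem_union, mem_Iio, mem_Ioi]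
      exact lt_or_lt_iff_ne.symm
    · rw [Finset.disjoint_left]
      intro j h2 h3
      rw [mem_Iio] at h2
      rw [mem_Ioi] at h3
      exact absurd (h2.trans h3) (lt_irrefl _)
  have h2 : ∑ i, ∑ j ∈ Iio i, a i j = ∑ i, ∑ j ∈ Ioi i, a i j := by
    rw [Finset.sum_comm' (s' := fun j => Ioi j) (t' := univ) (by
      intro x y
      simp)]
    exact Finset.sum_congr rfl fun i _ => Finset.sum_congr rfl fun j _ => ha j i
  rw [Finset.sum_congr rfl (fun i _ => h1 i), Finset.sum_add_distrib, h2]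
  ring

/-- many pairs, each counted once -/
lemma pairs_seq' {m : ℕ} (N : ℕ) (f : Fin m → ℕ → ℝ) (h0 : ∀ i k, 0 ≤ f i k)
    (h1 : ∀ i k, f i k ≤ 1) {p : ℝ} (hp : ∀ i, p * N ≤ ∑ k ∈ range N, f i k) (q : ℕ) :
    (q * (m * p) - q * (q + 1) / 2) * N ≤
      ∑ i, ∑ j ∈ Ioi i, ∑ k ∈ range N, f i k * f j k := by
  have h2 := pairs_seq N f h0 h1 hp q
  rw [sum_Ioi (fun i j => ∑ k ∈ range N, f i k * f j k)
    (fun i j => Finset.sum_congr rfl fun k _ => mul_comm _ _)] at h2
  linarith

/-- many positions where at least `k` of the sequences are positive -/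
lemma hits_seq {m : ℕ} (N : ℕ) (f : Fin m → ℕ → ℝ) (h1 : ∀ i k, f i k ≤ 1) {p : ℝ}
    (hp : ∀ i, p * N ≤ ∑ k ∈ range N, f i k) (k : ℕ) (hk : k < m) :
    (m * p - k) * N ≤ (m - k) *
      ((range N).filter (fun c => k + 1 ≤ (univ.filter (fun i => 0 < f i c)).card)).card := by
  classical
  have hkm : (k : ℝ) < m := by exact_mod_cast hk
  have h2 : ∀ c ∈ range N, ∑ i, f i c ≤ k + (m - k) *
      (if k + 1 ≤ (univ.filter (fun i => 0 < f i c)).card then (1 : ℝ) else 0) := by
    intro c _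
    have h3 : ∑ i, f i c ≤ ((univ.filter (fun i => 0 < f i c)).card : ℝ) := by
      rw [Finset.card_filter]
      push_cast
      apply Finset.sum_le_sum
      intro i _
      split_ifs with h
      · exact h1 i c
      · linarith
    split_ifs with h
    · have h4 : (univ.filter (fun i => 0 < f i c)).card ≤ m := by
        refine (Finset.card_filter_le _ _).trans ?_
        rw [card_univ, Fintype.card_fin]
      have h5 : ((univ.filter (fun i => 0 < f i c)).card : ℝ) ≤ m := by exact_mod_cast h4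
      linarith
    · have h4 : (univ.filter (fun i => 0 < f i c)).card ≤ k := by omega
      have h5 : ((univ.filter (fun i => 0 < f i c)).card : ℝ) ≤ k := by exact_mod_cast h4
      linarith
  have h3 := Finset.sum_le_sum h2
  rw [Finset.sum_add_distrib, Finset.sum_const, card_range, nsmul_eq_mul, ← Finset.mul_sum,
    Finset.sum_comm] at h3
  have h4 : (m : ℝ) * (p * N) ≤ ∑ i : Fin m, ∑ k ∈ range N, f i k := by
    calc (m : ℝ) * (p * N) = ∑ _i : Fin m, p * N := by
          rw [Finset.sum_const, card_univ, Fintype.card_fin, nsmul_eq_mul]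
      _ ≤ _ := Finset.sum_le_sum fun i _ => hp i
  have h5 : (((range N).filter (fun c => k + 1 ≤
      (univ.filter (fun i => 0 < f i c)).card)).card : ℝ) =
      ∑ c ∈ range N, (if k + 1 ≤ (univ.filter (fun i => 0 < f i c)).card then (1 : ℝ) else 0) := by
    rw [Finset.card_filter]
    push_cast
    rfl
  rw [h5]
  calc ((m : ℝ) * p - k) * N = m * (p * N) - N * k := by ring
    _ ≤ _ := by linarith

/-- the good distances -/
lemma good_seq {N J : ℕ} {f0 : ℕ → ℝ} {f : ℕ → ℕ → ℝ} (h0 : ∀ k, 0 ≤ f0 k)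
    (hf1 : ∀ j k, f j k ≤ 1) {p τ : ℝ} (hp0 : 0 < p)
    (hτ : 0 ≤ τ) (hN : 0 < N) (hp : p * N ≤ ∑ k ∈ range N, f0 k)
    (hJ : ∀ k < N, p * J ≤ ∑ j ∈ range J, f j k) :
    (p - τ / p) * J ≤
      ((range J).filter (fun j => τ * N ≤ ∑ k ∈ range N, f0 k * f j k)).card := by
  classical
  set S : ℝ := ∑ k ∈ range N, f0 k with hS
  have hN0 : (0 : ℝ) < N := by exact_mod_cast hN
  have hS0 : 0 < S := lt_of_lt_of_le (by positivity) hp
  have h2 : p * J * S ≤ ∑ j ∈ range J, ∑ k ∈ range N, f0 k * f j k := by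
    rw [Finset.sum_comm, hS, Finset.mul_sum]
    apply Finset.sum_le_sum
    intro k hk
    rw [mem_range] at hk
    rw [← Finset.mul_sum, mul_comm (p * (J : ℝ))]
    exact mul_le_mul_of_nonneg_left (hJ k hk) (h0 k)
  have h3 : ∀ j ∈ range J, ∑ k ∈ range N, f0 k * f j k ≤ τ * N +
      S * (if τ * N ≤ ∑ k ∈ range N, f0 k * f j k then (1 : ℝ) else 0) := by
    intro j _
    split_ifs with h
    · have h4 : ∑ k ∈ range N, f0 k * f j k ≤ S := by
        apply Finset.sum_le_sum
        intro k _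
        calc f0 k * f j k ≤ f0 k * 1 := mul_le_mul_of_nonneg_left (hf1 j k) (h0 k)
          _ = f0 k := mul_one _
      have : 0 ≤ τ * N := by positivity
      linarith
    · push Not at h
      linarith
  have h4 := Finset.sum_le_sum h3
  rw [Finset.sum_add_distrib, Finset.sum_const, card_range, nsmul_eq_mul, ← Finset.mul_sum] at h4
  have h5 : (((range J).filter (fun j => τ * N ≤ ∑ k ∈ range N, f0 k * f j k)).card : ℝ) =
      ∑ j ∈ range J, (if τ * N ≤ ∑ k ∈ range N, f0 k * f j k then (1 : ℝ) else 0) := by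
    rw [Finset.card_filter]
    push_cast
    rfl
  rw [h5]
  set G : ℝ := ∑ j ∈ range J, (if τ * N ≤ ∑ k ∈ range N, f0 k * f j k then (1 : ℝ) else 0)
  have h6 : p * J * S ≤ J * (τ * N) + S * G := h2.trans h4
  have h7 : τ * N ≤ τ / p * S := by
    rw [div_mul_eq_mul_div, le_div_iff₀ hp0]
    calc τ * N * p = τ * (p * N) := by ring
      _ ≤ τ * S := mul_le_mul_of_nonneg_left hp hτ
  have h8 : (J : ℝ) * (τ * N) ≤ J * (τ / p * S) := mul_le_mul_of_nonneg_left h7 (Nat.cast_nonneg _)
  have h9 : S * ((p - τ / p) * J) ≤ S * G := by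
    calc S * ((p - τ / p) * J) = p * J * S - J * (τ / p * S) := by ring
      _ ≤ S * G := by linarith
  exact le_of_mul_le_mul_left h9 hS0

/-- the Lebesgue measure of a union of cells -/
lemma measure_cells {T w : ℝ} (hw : 0 < w) (S : Finset ℕ) {A : Set ℝ}
    (h : ∀ c ∈ S, Set.Ioc (T + c * w) (T + (c + 1) * w) ⊆ A) :
    ENNReal.ofReal (S.card * w) ≤ MeasureTheory.volume A := by
  classical
  have hd : (S : Set ℕ).PairwiseDisjoint
      (fun c : ℕ => Set.Ioc (T + c * w) (T + (c + 1) * w)) := by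
    intro c _ d _ hcd
    simp only [Function.onFun]
    rw [Set.disjoint_left]
    rintro x ⟨h1, h2⟩ ⟨h3, h4⟩
    rcases lt_or_gt_of_ne hcd with h5 | h5
    · have h6 : (c : ℝ) + 1 ≤ d := by exact_mod_cast h5
      have := mul_le_mul_of_nonneg_right h6 hw.le
      linarith
    · have h6 : (d : ℝ) + 1 ≤ c := by exact_mod_cast h5
      have := mul_le_mul_of_nonneg_right h6 hw.le
      linarith
  have h1 : MeasureTheory.volume (⋃ c ∈ S, Set.Ioc (T + (c : ℝ) * w) (T + (c + 1) * w)) =
      ENNReal.ofReal (S.card * w) := by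
    rw [MeasureTheory.measure_biUnion_finset hd (fun c _ => measurableSet_Ioc)]
    have h2 : ∀ c ∈ S, MeasureTheory.volume (Set.Ioc (T + (c : ℝ) * w) (T + (c + 1) * w)) =
        ENNReal.ofReal w := by
      intro c _
      rw [Real.volume_Ioc]
      congr 1
      ring
    rw [Finset.sum_congr rfl h2, Finset.sum_const, nsmul_eq_mul,
      ENNReal.ofReal_mul (Nat.cast_nonneg _), ENNReal.ofReal_natCast]
  rw [← h1]
  exact MeasureTheory.measure_mono (Set.iUnion₂_subset h)

end Pool.Agent.U112.DS
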