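import Pool.Agent.Y763.PS.Every
import Pool.Agent.Y763.PS.Blocks
import Pool.Agent.U112.DS.Elem

/-!
# Several L-functions in every interval of length `T ^ h`: truncated counts in blocks of cells
-/

open Complex Filter Topology Set MeasureTheory
open scoped BigOperators ComplexConjugate

namespace Pool.Agent.U112.DS

open H370 Pool.Agent.TH342.CV

/-- the truncated counts, with the truncation `K` as the unit -/
theorem avg_unit {h ε : ℝ} (hh : 0 < h) (hh1 : h ≤ 1) (hε : 0 < ε) :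
    ∃ g K d : ℝ, 0 < g ∧ h * g ≤ K ∧ 0 < d ∧ d < h / 4 ∧ ∀ F : ℂ → ℂ, GoodL F → ∃ T0 : ℝ,
      10 ≤ T0 ∧ ∀ T : ℝ, T0 ≤ T → ∀ b : ℝ, 0 ≤ b → b ≤ T ^ (1 + d) →
      ∀ N : ℕ, T ^ (h - d) ≤ N * (g * (2 * Real.pi / Real.log T)) →
        N * (g * (2 * Real.pi / Real.log T)) ≤ T →
      ((2 - H295Iso.c0 h) / h - ε) * (K * N) ≤ ∑ k ∈ Finset.range N,
        min (cnt F (T + b + k * (g * (2 * Real.pi / Real.log T)))
          (T + b + (k + 1) * (g * (2 * Real.pi / Real.log T))) : ℝ) K := by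
  set A : ℝ := 2 - H295Iso.c0 h with hA
  obtain ⟨e, he0, he1, he⟩ : ∃ e : ℝ, 0 < e ∧ e ≤ 1 ∧ A / h - ε ≤ (A - e) / ((1 + e) * h) := by
    have hc : ContinuousAt (fun e : ℝ => (A - e) / ((1 + e) * h)) 0 := by
      apply ContinuousAt.div
      · fun_prop
      · fun_prop
      · simp [hh.ne']
    have h1 : (fun e : ℝ => (A - e) / ((1 + e) * h)) 0 = A / h := by simp
    have h2 : ∀ᶠ e : ℝ in 𝓝[>] 0, A / h - ε < (A - e) / ((1 + e) * h) :=
      nhdsWithin_le_nhds (hc.eventually (lt_mem_nhds (by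
        rw [h1]; linarith)))
    have e1 : ∀ᶠ x : ℝ in 𝓝[>] 0, 0 < x := self_mem_nhdsWithin
    have e2 : ∀ᶠ x : ℝ in 𝓝[>] 0, x < 1 := nhdsWithin_le_nhds (gt_mem_nhds one_pos)
    obtain ⟨e, ⟨h3, h4⟩, h5⟩ := ((e1.and e2).and h2).exists
    exact ⟨e, h3, h4.le, h5.le⟩
  obtain ⟨g, hg0, d, hd0, hdh, hcore⟩ := Pool.Agent.Y763.PS.avg_every hh hh1 he0 he1
  refine ⟨g, (1 + e) * (h * g), d, hg0, ?_, hd0, hdh, fun F hF => ?_⟩
  · have : 0 ≤ e * (h * g) := by positivity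
    linarith
  · obtain ⟨T0, hT0, hc⟩ := hcore F hF
    refine ⟨T0, hT0, fun T hT b hb0 hbT N hN1 hN2 => ?_⟩
    refine le_trans ?_ (hc T hT b hb0 hbT N hN1 hN2)
    have h3 : (A - e) * (g * N) = (A - e) / ((1 + e) * h) * ((1 + e) * (h * g) * N) := by
      field_simp
    rw [h3]
    exact mul_le_mul_of_nonneg_right he (by positivity)

/-- the truncated count in the block `c` of `J` cells, with values in `[0, 1]` -/
noncomputable def fr (F : ℂ → ℂ) (A w K : ℝ) (J c : ℕ) : ℝ :=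
  (∑ l ∈ Finset.range J, min (cnt F (A + ((c * J + l : ℕ) : ℝ) * w)
    (A + (((c * J + l : ℕ) : ℝ) + 1) * w) : ℝ) K) / (J * K)

lemma fr_nonneg (F : ℂ → ℂ) (A w : ℝ) {K : ℝ} (hK : 0 < K) (J c : ℕ) : 0 ≤ fr F A w K J c :=
  div_nonneg (Finset.sum_nonneg fun _ _ => le_min (Nat.cast_nonneg _) hK.le)
    (mul_nonneg (Nat.cast_nonneg _) hK.le)

lemma fr_le_one (F : ℂ → ℂ) (A w : ℝ) {K : ℝ} (hK : 0 < K) {J : ℕ} (hJ : 0 < J) (c : ℕ) :
    fr F A w K J c ≤ 1 := by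
  have hJ0 : (0 : ℝ) < J := by exact_mod_cast hJ
  unfold fr
  rw [div_le_one (by positivity)]
  calc _ ≤ ∑ _l ∈ Finset.range J, K := Finset.sum_le_sum fun _ _ => min_le_right _ _
    _ = J * K := by rw [Finset.sum_const, Finset.card_range, nsmul_eq_mul]

lemma fr_sum (F : ℂ → ℂ) (A w K : ℝ) (J M : ℕ) :
    ∑ c ∈ Finset.range M, fr F A w K J c = (∑ k ∈ Finset.range (M * J),
      min (cnt F (A + k * w) (A + (k + 1) * w) : ℝ) K) / (J * K) := by
  unfold fr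
  rw [← Finset.sum_div]
  congr 1
  have := Pool.Agent.Y763.PS.sum_blocks (fun k : ℕ => min (cnt F (A + k * w)
    (A + (k + 1) * w) : ℝ) K) 0 J M
  simp only [zero_add] at this
  exact this

lemma fr_cnt {F : ℂ → ℂ} (hF : GoodL F) {A w K : ℝ} (hA : 1 ≤ A) (hw : 0 < w) (hK : 0 < K)
    {J : ℕ} (hJ : 0 < J) (c : ℕ) : J * K * fr F A w K J c ≤
      (cnt F (A + c * (J * w)) (A + (c + 1) * (J * w)) : ℝ) := by
  have hJ0 : (0 : ℝ) < J := by exact_mod_cast hJ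
  have h1 : (cnt F (A + c * (J * w)) (A + (c + 1) * (J * w)) : ℝ) =
      cnt F (A + c * (J * w)) (A + c * (J * w) + J * w) := by
    congr 2; ring
  have hc0 : 0 ≤ (c : ℝ) * (J * w) := by positivity
  rw [h1, cnt_split hF (by linarith) hw.le]
  unfold fr
  rw [mul_div_cancel₀ _ (by positivity)]
  apply Finset.sum_le_sum
  intro l _
  refine (min_le_left _ _).trans (le_of_eq ?_)
  congr 2 <;> · push_cast; ring

/-- pairs of ordinates of simple critical zeros, the first one in `(T, T + H]`, with difference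
near `D` -/
def Prs (F F' : ℂ → ℂ) (T H D ρ : ℝ) : Set (ℝ × ℝ) :=
  {z | T < z.1 ∧ z.1 ≤ T + H ∧ SimpleAt F z.1 ∧ SimpleAt F' z.2 ∧ |z.2 - z.1 - D| < ρ}

lemma prs_finite {F F' : ℂ → ℂ} (hF : GoodL F) (hF' : GoodL F') {T : ℝ} (H : ℝ) {D ρ : ℝ}
    (hT : 1 ≤ T) (hD : 1 ≤ T + D - ρ) : (Prs F F' T H D ρ).Finite := by
  refine ((simple_finite hF (T1 := T) (T2 := T + H) hT).prod
    (simple_finite hF' (T1 := T + D - ρ) (T2 := T + H + D + ρ) hD)).subset ?_
  rintro ⟨x, y⟩ ⟨h1, h2, h3, h4, h5⟩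
  simp only at h1 h2 h3 h4 h5
  rw [abs_lt] at h5
  exact ⟨⟨h1, h2, h3⟩, by linarith [h5.1], by linarith [h5.2], h4⟩

/-- the pairs in the cells -/
lemma prs_count {F F' : ℂ → ℂ} {A A' H D ρ W : ℝ} (hW : 0 < W) (M : ℕ) (hM : M * W ≤ H)
    (hρ : |A' - A - D| + W ≤ ρ) (hfin : (Prs F F' A H D ρ).Finite) :
    ∑ k ∈ Finset.range M, (cnt F (A + k * W) (A + (k + 1) * W) : ℝ) *
      (cnt F' (A' + k * W) (A' + (k + 1) * W) : ℝ) ≤ ((Prs F F' A H D ρ).ncard : ℝ) := by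
  classical
  set B : ℕ → Finset (ℝ × ℝ) := fun k =>
    (cs F (A + k * W) (A + (k + 1) * W)) ×ˢ (cs F' (A' + k * W) (A' + (k + 1) * W)) with hB
  have hcard : ∀ k, ((B k).card : ℝ) = (cnt F (A + k * W) (A + (k + 1) * W) : ℝ) *
      (cnt F' (A' + k * W) (A' + (k + 1) * W) : ℝ) := by
    intro k
    simp only [hB, Finset.card_product, cs_card]
    push_cast
    ring
  have hdisj : ∀ k ∈ Finset.range M, ∀ l ∈ Finset.range M, k ≠ l → Disjoint (B k) (B l) := by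
    intro k _ l _ hkl
    rw [Finset.disjoint_left]
    rintro z hz1 hz2
    rw [Finset.mem_product] at hz1 hz2
    obtain ⟨a1, a2, -⟩ := cs_mem hz1.1
    obtain ⟨b1, b2, -⟩ := cs_mem hz2.1
    rcases lt_or_gt_of_ne hkl with h | h
    · have h6 : (k : ℝ) + 1 ≤ l := by exact_mod_cast h
      have := mul_le_mul_of_nonneg_right h6 hW.le
      linarith
    · have h6 : (l : ℝ) + 1 ≤ k := by exact_mod_cast h
      have := mul_le_mul_of_nonneg_right h6 hW.le
      linarith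
  have h1 : ∑ k ∈ Finset.range M, (cnt F (A + k * W) (A + (k + 1) * W) : ℝ) *
      (cnt F' (A' + k * W) (A' + (k + 1) * W) : ℝ) = (((Finset.range M).biUnion B).card : ℝ) := by
    rw [Finset.card_biUnion hdisj]
    push_cast
    exact Finset.sum_congr rfl fun k _ => (hcard k).symm
  rw [h1, ← Set.ncard_coe_finset]
  have hsub : (((Finset.range M).biUnion B : Finset (ℝ × ℝ)) : Set (ℝ × ℝ)) ⊆
      Prs F F' A H D ρ := by
    intro z hz
    rw [Finset.mem_coe, Finset.mem_biUnion] at hz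
    obtain ⟨k, hk, hz⟩ := hz
    rw [Finset.mem_range] at hk
    rw [Finset.mem_product] at hz
    obtain ⟨a1, a2, a3⟩ := cs_mem hz.1
    obtain ⟨b1, b2, b3⟩ := cs_mem hz.2
    have hk1 : (k : ℝ) + 1 ≤ M := by exact_mod_cast hk
    have hk2 := mul_le_mul_of_nonneg_right hk1 hW.le
    have hk3 : ((k : ℝ) + 1) * W = k * W + W := by ring
    have hk0 : 0 ≤ (k : ℝ) * W := by positivity
    have h5 := abs_le.mp (le_refl |A' - A - D|)
    refine ⟨by linarith, by linarith, a3, b3, ?_⟩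
    rw [abs_lt]
    constructor <;> linarith [h5.1, h5.2]
  exact_mod_cast Set.ncard_le_ncard hsub hfin

/-- the number of blocks -/
lemma blocks_number {H W e : ℝ} (hW : 0 < W) (hH0 : 0 < H) (hH : W ≤ e * H) :
    ∃ M : ℕ, (M : ℝ) * W ≤ H ∧ (1 - e) * H ≤ M * W := by
  refine ⟨⌊H / W⌋₊, ?_, ?_⟩
  · have := Nat.floor_le (by positivity : 0 ≤ H / W)
    rwa [le_div_iff₀ hW] at this
  · have h1 := Nat.lt_floor_add_one (H / W)
    rw [div_lt_iff₀ hW] at h1
    have : ((⌊H / W⌋₊ : ℝ) + 1) * W = ⌊H / W⌋₊ * W + W := by ring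
    have h3 : (1 - e) * H = H - e * H := by ring
    linarith

end Pool.Agent.U112.DS
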