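import Pool.Agent.U112.DS.Elem

/-!
# The elementary symmetric functions on the cube
-/

open Finset

namespace Pool.Agent.U112.DS

/-- the elementary symmetric function -/
noncomputable def es {ι : Type*} (r : ℕ) (s : Finset ι) (x : ι → ℝ) : ℝ :=
  ∑ t ∈ s.powersetCard r, ∏ i ∈ t, x i

lemma es_zero {ι : Type*} (s : Finset ι) (x : ι → ℝ) : es 0 s x = 1 := by
  unfold es
  rw [powersetCard_zero, sum_singleton, prod_empty]

lemma es_one {ι : Type*} (s : Finset ι) (x : ι → ℝ) : es 1 s x = ∑ i ∈ s, x i := by
  unfold es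
  rw [powersetCard_one, sum_map]
  simp

lemma es_insert {ι : Type*} [DecidableEq ι] (r : ℕ) {s : Finset ι} {a : ι} (ha : a ∉ s)
    (x : ι → ℝ) : es (r + 1) (insert a s) x = es (r + 1) s x + x a * es r s x := by
  unfold es
  rw [powersetCard_succ_insert ha, sum_union]
  · congr 1
    rw [sum_image, mul_sum]
    · apply sum_congr rfl
      intro t ht
      rw [mem_powersetCard] at ht
      rw [prod_insert (fun h => ha (ht.1 h))]
    · intro t ht t' ht' h
      rw [mem_coe, mem_powersetCard] at ht ht'
      have h1 : (insert a t).erase a = (insert a t').erase a := by rw [h]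
      rwa [erase_insert (fun h => ha (ht.1 h)), erase_insert (fun h => ha (ht'.1 h))] at h1
  · rw [disjoint_left]
    intro t ht ht'
    rw [mem_powersetCard] at ht
    rw [mem_image] at ht'
    obtain ⟨t', -, rfl⟩ := ht'
    exact ha (ht.1 (mem_insert_self a t'))

lemma es_nonneg {ι : Type*} (r : ℕ) (s : Finset ι) (x : ι → ℝ) (h0 : ∀ i ∈ s, 0 ≤ x i) :
    0 ≤ es r s x :=
  sum_nonneg fun _ ht => prod_nonneg fun i hi => h0 i ((mem_powersetCard.mp ht).1 hi)

/-- on the cube the elementary symmetric function is at least the chord of `q ↦ q.choose r` -/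
theorem es_lower {ι : Type*} (s : Finset ι) (x : ι → ℝ) (h0 : ∀ i ∈ s, 0 ≤ x i)
    (h1 : ∀ i ∈ s, x i ≤ 1) (r q : ℕ) :
    (q.choose (r + 1) : ℝ) + (∑ i ∈ s, x i - q) * q.choose r ≤ es (r + 1) s x := by
  classical
  induction s using Finset.induction_on generalizing r q with
  | empty =>
    have h2 : es (r + 1) (∅ : Finset ι) x = 0 := by
      unfold es
      rw [powersetCard_eq_empty.mpr (by simp), sum_empty]
    rw [h2, sum_empty]
    -- `choose q (r+1) ≤ q * choose q r`
    have h3 : q.choose (r + 1) ≤ q * q.choose r := by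
      have h4 := Nat.choose_succ_right_eq q r
      have h5 : q.choose (r + 1) ≤ q.choose (r + 1) * (r + 1) := Nat.le_mul_of_pos_right _ (by omega)
      have h6 : q.choose r * (q - r) ≤ q.choose r * q := Nat.mul_le_mul_left _ (by omega)
      calc q.choose (r + 1) ≤ q.choose (r + 1) * (r + 1) := h5
        _ = q.choose r * (q - r) := h4
        _ ≤ q.choose r * q := h6
        _ = q * q.choose r := mul_comm _ _
    have h7 : ((q.choose (r + 1) : ℕ) : ℝ) ≤ q * q.choose r := by exact_mod_cast h3
    linarith
  | insert a s ha ih =>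
    have b0 := fun i hi => h0 i (mem_insert_of_mem hi)
    have b1 := fun i hi => h1 i (mem_insert_of_mem hi)
    have a0 := h0 a (mem_insert_self a s)
    have a1 := h1 a (mem_insert_self a s)
    rw [sum_insert ha, es_insert r ha]
    set S := ∑ i ∈ s, x i with hS
    -- at `x a = 0`
    have c0 := ih b0 b1 r q
    -- at `x a = 1`
    have c1 : (q.choose (r + 1) : ℝ) + (S + 1 - q) * q.choose r ≤ es (r + 1) s x + es r s x := by
      rcases Nat.eq_zero_or_pos q with hq | hq
      · subst hq
        have hE := es_nonneg (r + 1) s x b0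
        rcases Nat.eq_zero_or_pos r with hr | hr
        · subst hr
          rw [es_zero, es_one]
          simp [hS]
        · have hE' := es_nonneg r s x b0
          rw [Nat.choose_eq_zero_of_lt (by omega), Nat.choose_eq_zero_of_lt hr]
          simp only [Nat.cast_zero, mul_zero, add_zero]
          linarith
      · obtain ⟨q', rfl⟩ : ∃ q', q = q' + 1 := ⟨q - 1, by omega⟩
        have i1 := ih b0 b1 r q'
        rcases Nat.eq_zero_or_pos r with hr | hr
        · subst hr
          rw [es_zero, es_one]
          simp only [zero_add, Nat.choose_one_right, Nat.choose_zero_right]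
          push_cast
          rw [← hS]
          linarith
        · obtain ⟨r', rfl⟩ : ∃ r', r = r' + 1 := ⟨r - 1, by omega⟩
          have i2 := ih b0 b1 r' q'
          rw [Nat.choose_succ_succ' q' (r' + 1), Nat.choose_succ_succ' q' r']
          push_cast
          linarith
    calc (q.choose (r + 1) : ℝ) + (x a + S - q) * q.choose r =
          (1 - x a) * ((q.choose (r + 1) : ℝ) + (S - q) * q.choose r) +
          x a * ((q.choose (r + 1) : ℝ) + (S + 1 - q) * q.choose r) := by ring
      _ ≤ (1 - x a) * es (r + 1) s x + x a * (es (r + 1) s x + es r s x) :=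
          add_le_add (mul_le_mul_of_nonneg_left c0 (by linarith)) (mul_le_mul_of_nonneg_left c1 a0)
      _ = es (r + 1) s x + x a * es r s x := by ring

/-- many tuples -/
lemma tuples_seq {m : ℕ} (N : ℕ) (f : Fin m → ℕ → ℝ) (h0 : ∀ i k, 0 ≤ f i k)
    (h1 : ∀ i k, f i k ≤ 1) {p : ℝ} (hp : ∀ i, p * N ≤ ∑ k ∈ range N, f i k) (r q : ℕ) :
    (q.choose (r + 1) + (m * p - q) * q.choose r) * N ≤
      ∑ t ∈ (univ : Finset (Fin m)).powersetCard (r + 1), ∑ k ∈ range N, ∏ i ∈ t, f i k := by
  classical
  rw [Finset.sum_comm]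
  have h2 : ∀ k ∈ range N, (q.choose (r + 1) : ℝ) + (∑ i, f i k - q) * q.choose r ≤
      ∑ t ∈ (univ : Finset (Fin m)).powersetCard (r + 1), ∏ i ∈ t, f i k := fun k _ =>
    es_lower univ (fun i => f i k) (fun i _ => h0 i k) (fun i _ => h1 i k) r q
  refine le_trans ?_ (Finset.sum_le_sum h2)
  rw [Finset.sum_add_distrib, ← Finset.sum_mul, Finset.sum_sub_distrib, Finset.sum_const,
    Finset.sum_const, card_range, nsmul_eq_mul, nsmul_eq_mul, Finset.sum_comm]
  have h4 : (m : ℝ) * (p * N) ≤ ∑ i : Fin m, ∑ k ∈ range N, f i k := by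
    calc (m : ℝ) * (p * N) = ∑ _i : Fin m, p * N := by
          rw [Finset.sum_const, card_univ, Fintype.card_fin, nsmul_eq_mul]
      _ ≤ _ := Finset.sum_le_sum fun i _ => hp i
  have h5 := mul_le_mul_of_nonneg_right h4 (Nat.cast_nonneg (α := ℝ) (q.choose r))
  calc ((q.choose (r + 1) : ℝ) + (m * p - q) * q.choose r) * N =
      N * (q.choose (r + 1) : ℝ) + (m * (p * N) * q.choose r - N * q * q.choose r) := by ring
    _ ≤ _ := by
      have : (∑ i : Fin m, ∑ k ∈ range N, f i k - (N : ℝ) * q) * q.choose r =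
        (∑ i : Fin m, ∑ k ∈ range N, f i k) * q.choose r - N * q * q.choose r := by ring
      rw [this]
      linarith

end Pool.Agent.U112.DS
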