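import Pool.Agent.U112.DS.Core

/-!
# `k` of `m` shifts, pairs among `m` shifts, and the density of the distances, in every interval
-/

open Complex Filter Topology Set MeasureTheory
open scoped BigOperators ComplexConjugate

namespace Pool.Agent.U112.DS

set_option maxHeartbeats 1000000

open H370 Pool.Agent.TH342.CV

lemma fr_avg {F : ℂ → ℂ} {A w K p : ℝ} (hK : 0 < K) {J : ℕ} (hJ : 0 < J) {M : ℕ}
    (h : p * (K * ((M * J : ℕ) : ℝ)) ≤ ∑ k ∈ Finset.range (M * J),
      min (cnt F (A + k * w) (A + (k + 1) * w) : ℝ) K) :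
    p * M ≤ ∑ c ∈ Finset.range M, fr F A w K J c := by
  have hJ0 : (0 : ℝ) < J := by exact_mod_cast hJ
  rw [fr_sum, le_div_iff₀ (by positivity)]
  refine le_trans (le_of_eq ?_) h
  push_cast
  ring

/-- conditions for large `T` -/
lemma large {h d g e : ℝ} (hd : 0 < d) (hh : 0 < h) (he : 0 < e) (hg : 0 < g) :
    ∃ T1 : ℝ, 10 ≤ T1 ∧ ∀ T : ℝ, T1 ≤ T → 1 ≤ Real.log T ∧ 2 ≤ T ^ d ∧
      g * (2 * Real.pi / Real.log T) ≤ e * T ^ h := by
  have hpi := Real.pi_pos
  have e1 : ∀ᶠ T : ℝ in atTop, 1 ≤ Real.log T := Real.tendsto_log_atTop.eventually_ge_atTop 1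
  have e2 : ∀ᶠ T : ℝ in atTop, 2 ≤ T ^ d := (tendsto_rpow_atTop hd).eventually_ge_atTop 2
  have e3 : ∀ᶠ T : ℝ in atTop, g * (2 * Real.pi) / e ≤ T ^ h :=
    (tendsto_rpow_atTop hh).eventually_ge_atTop _
  obtain ⟨T1, hT1⟩ := (e1.and (e2.and e3)).exists_forall_of_atTop
  refine ⟨max T1 10, le_max_right _ _, fun T hT => ?_⟩
  obtain ⟨h1, h2, h3⟩ := hT1 T ((le_max_left _ _).trans hT)
  refine ⟨h1, h2, ?_⟩
  rw [div_le_iff₀ he] at h3
  calc g * (2 * Real.pi / Real.log T) ≤ g * (2 * Real.pi) := by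
        apply mul_le_mul_of_nonneg_left _ hg.le
        exact div_le_self (by positivity) h1
    _ ≤ _ := by linarith

lemma half_pow {T h d H x : ℝ} (hT : 0 < T) (hd : 2 ≤ T ^ d) (hH : T ^ h ≤ H) (hx : H / 2 ≤ x) :
    T ^ (h - d) ≤ x := by
  have h1 : T ^ h = T ^ (h - d) * T ^ d := by
    rw [← Real.rpow_add hT]; congr 1; ring
  have h2 : T ^ (h - d) * 2 ≤ T ^ (h - d) * T ^ d :=
    mul_le_mul_of_nonneg_left hd (Real.rpow_nonneg hT.le _)
  linarith

lemma add_pow {T d b w : ℝ} (hT : 1 ≤ T) (hd0 : 0 < d) (hd : 2 ≤ T ^ (d / 2)) (hb : b ≤ T ^ (1 + d / 2))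
    (hw : w ≤ T) : b + w ≤ T ^ (1 + d) := by
  have h1 : T ^ (1 + d) = T ^ (1 + d / 2) * T ^ (d / 2) := by
    rw [← Real.rpow_add (by linarith)]; congr 1; ring
  have h2 : T ≤ T ^ (1 + d / 2) := by
    conv_lhs => rw [← Real.rpow_one T]
    exact Real.rpow_le_rpow_of_exponent_le hT (by linarith)
  have h3 : T ^ (1 + d / 2) * 2 ≤ T ^ (1 + d / 2) * T ^ (d / 2) :=
    mul_le_mul_of_nonneg_left hd (Real.rpow_nonneg (by linarith) _)
  linarith

/-- at least `k + 1` of `m` shifts -/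
theorem hits {m k : ℕ} (hk : k < m) {h ε : ℝ} (hh : 0 < h) (hh1 : h ≤ 1) (hε : 0 < ε) :
    ∃ L d : ℝ, 0 < L ∧ 0 < d ∧ ∀ F : Fin m → ℂ → ℂ, (∀ i, GoodL (F i)) → ∃ T0 : ℝ, 10 ≤ T0 ∧
      ∀ T : ℝ, T0 ≤ T → ∀ H : ℝ, T ^ h ≤ H → H ≤ T → ∀ b : Fin m → ℝ,
      (∀ i, 0 ≤ b i ∧ b i ≤ T ^ (1 + d)) →
      ENNReal.ofReal (((m * ((2 - H295Iso.c0 h) / h) - k) / (m - k) - ε) * H) ≤
        volume {t : ℝ | T < t ∧ t ≤ T + H ∧ k + 1 ≤ {i | ∃ x : ℝ, t + b i < x ∧
          x ≤ t + b i + L * (2 * Real.pi / Real.log T) ∧ SimpleAt (F i) x}.ncard} := by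
  classical
  have hpi := Real.pi_pos
  have hkm : (0 : ℝ) < m - k := by
    have : (k : ℝ) < m := by exact_mod_cast hk
    linarith
  have hm0 : (0 : ℝ) < m := lt_of_le_of_lt (Nat.cast_nonneg k) (by linarith)
  set P : ℝ := (2 - H295Iso.c0 h) / h with hP
  set ε1 : ℝ := ε * (m - k) / (4 * m) with hε1
  have hε10 : 0 < ε1 := by positivity
  obtain ⟨g, K, d, hg, hgK, hd, hdh, hcore⟩ := avg_unit hh hh1 hε10
  have hK : 0 < K := lt_of_lt_of_le (by positivity) hgK
  set e : ℝ := min (ε / 4) (1 / 2) with he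
  have he0 : 0 < e := lt_min (by linarith) (by norm_num)
  have he1 : e ≤ ε / 4 := min_le_left _ _
  have he2 : e ≤ 1 / 2 := min_le_right _ _
  refine ⟨2 * g, d / 2, by linarith, by linarith, fun F hF => ?_⟩
  choose T1 hT1 hc using fun i => hcore (F i) (hF i)
  obtain ⟨T2, hT2, hl⟩ := large (h := h) (d := d / 2) (g := g) (e := e) (by linarith) hh he0 hg
  set TS : ℝ := ∑ i, T1 i with hTS
  refine ⟨max TS T2, hT2.trans (le_max_right _ _), fun T hT H hH1 hH2 b hb => ?_⟩
  have hTi : ∀ i, T1 i ≤ T := by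
    intro i
    refine le_trans ?_ ((le_max_left _ _).trans hT)
    exact Finset.single_le_sum (f := T1) (fun j _ => by linarith [hT1 j]) (Finset.mem_univ i)
  obtain ⟨hlog, hTd, hw1⟩ := hl T ((le_max_right _ _).trans hT)
  have hT10 : 10 ≤ T := hT2.trans ((le_max_right _ _).trans hT)
  have hT0 : 0 < T := by linarith
  have hlog0 : 0 < Real.log T := by linarith
  set w : ℝ := g * (2 * Real.pi / Real.log T) with hw
  have hw0 : 0 < w := by positivity
  have hH0 : 0 < H := (Real.rpow_pos_of_pos hT0 _).trans_le hH1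
  have hwH : w ≤ e * H := hw1.trans (mul_le_mul_of_nonneg_left hH1 he0.le)
  obtain ⟨N, hN1, hN2⟩ := blocks_number hw0 hH0 hwH
  have hTd' : 2 ≤ T ^ d := hTd.trans (Real.rpow_le_rpow_of_exponent_le (by linarith) (by linarith))
  have hNh : H / 2 ≤ N * w := by
    refine le_trans ?_ hN2
    have : e * H ≤ 1 / 2 * H := mul_le_mul_of_nonneg_right he2 hH0.le
    linarith
  have hNT := half_pow hT0 hTd' hH1 hNh
  have hNpos : 0 < N := by
    rcases Nat.eq_zero_or_pos N with h9 | h9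
    · rw [h9] at hNh
      simp only [Nat.cast_zero, zero_mul] at hNh
      linarith
    · exact h9
  have hN0 : (0 : ℝ) < N := by exact_mod_cast hNpos
  have hwT : w ≤ T := by
    have : e * H ≤ 1 * H := mul_le_mul_of_nonneg_right (by linarith) hH0.le
    linarith
  set f : Fin m → ℕ → ℝ := fun i c => fr (F i) (T + (b i + w)) w K 1 c with hf
  have hfa : ∀ i, (P - ε1) * N ≤ ∑ c ∈ Finset.range N, f i c := by
    intro i
    apply fr_avg hK one_pos
    rw [mul_one]
    exact hc i T (hTi i) (b i + w) (by linarith [(hb i).1])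
      (add_pow (by linarith) hd hTd (hb i).2 hwT) N hNT (hN1.trans hH2)
  have hmain := hits_seq N f (fun i c => fr_le_one _ _ _ hK one_pos c) hfa k hk
  set S : Finset ℕ := (Finset.range N).filter
    (fun c => k + 1 ≤ (Finset.univ.filter (fun i => 0 < f i c)).card) with hS
  have hSN : (S.card : ℝ) ≤ N := by
    have : S.card ≤ N := (Finset.card_filter_le _ _).trans (by rw [Finset.card_range])
    exact_mod_cast this
  set v : ℝ := (m * (P - ε1) - k) / (m - k) with hv
  have hvS : v * N ≤ S.card := by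
    rw [hv, div_mul_eq_mul_div, div_le_iff₀ hkm]
    linarith
  have hv1 : v ≤ 1 := by
    have : v * N ≤ 1 * N := by linarith
    exact le_of_mul_le_mul_right this hN0
  have hvV : v = (m * P - k) / (m - k) - ε / 4 := by
    rw [hv, hε1]
    field_simp
    ring
  have hkey : ((m * P - k) / (m - k) - ε) * H ≤ S.card * w := by
    rcases le_or_gt v 0 with hv0 | hv0
    · have h1 : (m * P - k) / (m - k) - ε ≤ 0 := by linarith
      exact (mul_nonpos_of_nonpos_of_nonneg h1 hH0.le).trans (by positivity)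
    · have h1 : v * ((1 - e) * H) ≤ v * (N * w) := mul_le_mul_of_nonneg_left hN2 hv0.le
      have h2 : v * N * w ≤ S.card * w := mul_le_mul_of_nonneg_right hvS hw0.le
      have h3 : (v * e) * H ≤ (ε / 4) * H := by
        apply mul_le_mul_of_nonneg_right _ hH0.le
        calc v * e ≤ 1 * e := mul_le_mul_of_nonneg_right hv1 he0.le
          _ ≤ ε / 4 := by linarith
      have h4 : 0 ≤ ε * H := by positivity
      have h5 : ((m * P - k) / (m - k) - ε) * H = v * H - 3 / 4 * (ε * H) := by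
        rw [hvV]; ring
      rw [h5]
      have h6 : v * ((1 - e) * H) = v * H - (v * e) * H := by ring
      have h7 : v * N * w = v * (N * w) := by ring
      linarith
  refine (ENNReal.ofReal_le_ofReal hkey).trans (measure_cells (T := T) hw0 S ?_)
  intro c hcS t ht
  obtain ⟨ht1, ht2⟩ := ht
  rw [hS, Finset.mem_filter, Finset.mem_range] at hcS
  obtain ⟨hcN, hck⟩ := hcS
  have hc1 : (c : ℝ) + 1 ≤ N := by exact_mod_cast hcN
  have hc2 := mul_le_mul_of_nonneg_right hc1 hw0.le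
  have hc0 : 0 ≤ (c : ℝ) * w := by positivity
  refine ⟨by linarith, by linarith, hck.trans ?_⟩
  rw [← Set.ncard_coe_finset]
  apply Set.ncard_le_ncard _ (Set.toFinite _)
  intro i hi
  rw [Finset.mem_coe, Finset.mem_filter] at hi
  have h1 := fr_cnt (hF i) (A := T + (b i + w)) (w := w) (K := K) (by linarith [(hb i).1]) hw0 hK
    one_pos c
  have h2 : 0 < ((1 : ℕ) : ℝ) * K * fr (F i) (T + (b i + w)) w K 1 c := by
    have : 0 < fr (F i) (T + (b i + w)) w K 1 c := hi.2
    push_cast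
    positivity
  have h3 : (0 : ℝ) < (cnt (F i) (T + (b i + w) + c * (((1 : ℕ) : ℝ) * w))
    (T + (b i + w) + (c + 1) * (((1 : ℕ) : ℝ) * w)) : ℝ) := lt_of_lt_of_le h2 h1
  have h4 : 0 < cnt (F i) (T + (b i + w) + c * (((1 : ℕ) : ℝ) * w))
    (T + (b i + w) + (c + 1) * (((1 : ℕ) : ℝ) * w)) := by exact_mod_cast h3
  rw [← cs_card, Finset.card_pos] at h4
  obtain ⟨x, hx⟩ := h4
  obtain ⟨x1, x2, x3⟩ := cs_mem hx
  simp only [Nat.cast_one, one_mul] at x1 x2
  have h5 : ((c : ℝ) + 1) * w = c * w + w := by ring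
  refine ⟨x, by linarith, ?_, x3⟩
  have h6 : 2 * g * (2 * Real.pi / Real.log T) = 2 * w := by rw [hw]; ring
  rw [h6]
  linarith

/-- the pairs among `m` shifts -/
theorem pairs_m (m q : ℕ) {h ε : ℝ} (hh : 0 < h) (hh1 : h ≤ 1) (hε : 0 < ε) :
    ∃ L d : ℝ, 0 < L ∧ 0 < d ∧ ∀ F : Fin m → ℂ → ℂ, (∀ i, GoodL (F i)) → ∃ T0 : ℝ, 10 ≤ T0 ∧
      ∀ T : ℝ, T0 ≤ T → ∀ H : ℝ, T ^ h ≤ H → H ≤ T → ∀ b : Fin m → ℝ,
      (∀ i, 0 ≤ b i ∧ b i ≤ T ^ (1 + d)) → ∀ ρ : ℝ, L ≤ ρ →
      ρ * (2 * Real.pi / Real.log T) ≤ d * H →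
      (q * (m * ((2 - H295Iso.c0 h) / h)) - q * (q + 1) / 2 - ε) * h ^ 2 * ρ *
        (H / (2 * Real.pi) * Real.log T) ≤
        ∑ i, ∑ j ∈ Finset.Ioi i,
          ((Prs (F i) (F j) (T + b i) H (b j - b i)
            (ρ * (2 * Real.pi / Real.log T))).ncard : ℝ) := by
  classical
  have hpi := Real.pi_pos
  set P : ℝ := (2 - H295Iso.c0 h) / h with hP
  set ε1 : ℝ := ε / (4 * (q * m + 1)) with hε1
  have hqm : (0 : ℝ) ≤ q * m := by positivity
  have hε10 : 0 < ε1 := by positivity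
  have hε11 : (q * m) * ε1 ≤ ε / 2 := by
    rw [hε1, mul_div_assoc', div_le_div_iff₀ (by positivity) (by norm_num)]
    have : 0 ≤ ε * (q * m) := by positivity
    linarith
  obtain ⟨g, K, d, hg, hgK, hd, hdh, hcore⟩ := avg_unit hh hh1 hε10
  have hK : 0 < K := lt_of_lt_of_le (by positivity) hgK
  set B : ℝ := q * (m * (P - ε1)) - q * (q + 1) / 2 with hB
  have hBv : q * (m * P) - q * (q + 1) / 2 - ε / 2 ≤ B := by
    have : B = q * (m * P) - q * (q + 1) / 2 - (q * m) * ε1 := by rw [hB]; ring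
    rw [this]; linarith
  set e : ℝ := min (ε / (4 * (|B| + 1))) (1 / 2) with he
  have hB1 : 0 < |B| + 1 := by positivity
  have he0 : 0 < e := lt_min (by positivity) (by norm_num)
  have he1 : e ≤ ε / (4 * (|B| + 1)) := min_le_left _ _
  have he2 : e ≤ 1 / 2 := min_le_right _ _
  refine ⟨g / e, min d e, by positivity, lt_min hd he0, fun F hF => ?_⟩
  choose T1 hT1 hc using fun i => hcore (F i) (hF i)
  obtain ⟨T2, hT2, hl⟩ := large (h := h) (d := d) (g := g) (e := e) hd hh he0 hg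
  set TS : ℝ := ∑ i, T1 i with hTS
  refine ⟨max TS T2, hT2.trans (le_max_right _ _), fun T hT H hH1 hH2 b hb ρ hρ1 hρ2 => ?_⟩
  have hTi : ∀ i, T1 i ≤ T := by
    intro i
    refine le_trans ?_ ((le_max_left _ _).trans hT)
    exact Finset.single_le_sum (f := T1) (fun j _ => by linarith [hT1 j]) (Finset.mem_univ i)
  obtain ⟨hlog, hTd, hw1⟩ := hl T ((le_max_right _ _).trans hT)
  have hT10 : 10 ≤ T := hT2.trans ((le_max_right _ _).trans hT)
  have hT0 : 0 < T := by linarith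
  have hlog0 : 0 < Real.log T := by linarith
  set σ : ℝ := 2 * Real.pi / Real.log T with hσ
  have hσ0 : 0 < σ := by positivity
  set w : ℝ := g * σ with hw
  have hw0 : 0 < w := by positivity
  have hH0 : 0 < H := (Real.rpow_pos_of_pos hT0 _).trans_le hH1
  have hρ0 : 0 < ρ := lt_of_lt_of_le (by positivity) hρ1
  have hge : g ≤ e * ρ := by
    rw [div_le_iff₀ he0] at hρ1
    linarith
  -- the blocks
  set J : ℕ := ⌊ρ / g⌋₊ with hJ
  have hJ1 : (J : ℝ) * g ≤ ρ := by
    have := Nat.floor_le (by positivity : 0 ≤ ρ / g)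
    rwa [le_div_iff₀ hg] at this
  have hJ2 : (1 - e) * ρ ≤ J * g := by
    have h1 := Nat.lt_floor_add_one (ρ / g)
    rw [div_lt_iff₀ hg] at h1
    have h2 : ((J : ℝ) + 1) * g = J * g + g := by ring
    have h3 : (1 - e) * ρ = ρ - e * ρ := by ring
    rw [h3]
    rw [← hJ] at h1
    linarith
  have hJg0 : 0 < (J : ℝ) * g := lt_of_lt_of_le (mul_pos (by linarith) hρ0) hJ2
  have hJpos : 0 < J := by
    rcases Nat.eq_zero_or_pos J with h9 | h9
    · rw [h9] at hJg0
      simp at hJg0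
    · exact h9
  have hJ0 : (0 : ℝ) < J := by exact_mod_cast hJpos
  set W : ℝ := J * w with hW
  have hW0 : 0 < W := by positivity
  have hWρ : W ≤ ρ * σ := by
    have : W = J * g * σ := by rw [hW, hw]; ring
    rw [this]
    exact mul_le_mul_of_nonneg_right hJ1 hσ0.le
  have hWH : W ≤ e * H := by
    refine hWρ.trans (hρ2.trans (mul_le_mul_of_nonneg_right (min_le_right _ _) hH0.le))
  obtain ⟨M, hM1, hM2⟩ := blocks_number hW0 hH0 hWH
  have hMh : H / 2 ≤ M * W := by
    refine le_trans ?_ hM2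
    have : e * H ≤ 1 / 2 * H := mul_le_mul_of_nonneg_right he2 hH0.le
    linarith
  have hMW : ((M * J : ℕ) : ℝ) * w = M * W := by rw [hW]; push_cast; ring
  have hNT := half_pow hT0 hTd hH1 hMh
  set f : Fin m → ℕ → ℝ := fun i c => fr (F i) (T + b i) w K J c with hf
  have hfa : ∀ i, (P - ε1) * M ≤ ∑ c ∈ Finset.range M, f i c := by
    intro i
    apply fr_avg hK hJpos
    refine hc i T (hTi i) (b i) (hb i).1 ((hb i).2.trans ?_) (M * J) ?_ ?_
    · exact Real.rpow_le_rpow_of_exponent_le (by linarith) (by linarith [min_le_left d e])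
    · rw [hMW]; exact hNT
    · rw [hMW]; exact hM1.trans hH2
  have hmain := pairs_seq' M f (fun i c => fr_nonneg _ _ _ hK J c)
    (fun i c => fr_le_one _ _ _ hK hJpos c) hfa q
  -- the number of pairs
  have hρT : ρ * σ ≤ T / 2 := by
    have h1 : min d e * H ≤ 1 / 2 * H :=
      mul_le_mul_of_nonneg_right ((min_le_right _ _).trans he2) hH0.le
    linarith
  have hpair : ∀ i j : Fin m, (J * K) ^ 2 * ∑ c ∈ Finset.range M, f i c * f j c ≤
      ((Prs (F i) (F j) (T + b i) H (b j - b i) (ρ * σ)).ncard : ℝ) := by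
    intro i j
    have h1 := prs_count (F := F i) (F' := F j) (A := T + b i) (A' := T + b j) (H := H)
      (D := b j - b i) (ρ := ρ * σ) hW0 M hM1 (by
        have : T + b j - (T + b i) - (b j - b i) = 0 := by ring
        rw [this, abs_zero, zero_add]
        exact hWρ) (prs_finite (hF i) (hF j) H (by linarith [(hb i).1]) (by
        linarith [(hb j).1]))
    refine le_trans ?_ h1
    rw [Finset.mul_sum]
    apply Finset.sum_le_sum
    intro c _
    have h2 := fr_cnt (hF i) (A := T + b i) (w := w) (K := K) (by linarith [(hb i).1]) hw0 hK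
      hJpos c
    have h3 := fr_cnt (hF j) (A := T + b j) (w := w) (K := K) (by linarith [(hb j).1]) hw0 hK
      hJpos c
    have h4 := fr_nonneg (F i) (T + b i) w hK J c
    have h5 := fr_nonneg (F j) (T + b j) w hK J c
    calc (J * K) ^ 2 * (f i c * f j c) = (J * K * fr (F i) (T + b i) w K J c) *
          (J * K * fr (F j) (T + b j) w K J c) := by rw [hf]; ring
      _ ≤ _ := mul_le_mul h2 h3 (by positivity) (Nat.cast_nonneg _)
  have hsum : (J * K) ^ 2 * (B * M) ≤ ∑ i, ∑ j ∈ Finset.Ioi i,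
      ((Prs (F i) (F j) (T + b i) H (b j - b i) (ρ * σ)).ncard : ℝ) := by
    calc (J * K) ^ 2 * (B * M) ≤ (J * K) ^ 2 * ∑ i, ∑ j ∈ Finset.Ioi i,
          ∑ c ∈ Finset.range M, f i c * f j c :=
          mul_le_mul_of_nonneg_left hmain (by positivity)
      _ = ∑ i, ∑ j ∈ Finset.Ioi i, (J * K) ^ 2 *
          ∑ c ∈ Finset.range M, f i c * f j c := by
          rw [Finset.mul_sum]
          exact Finset.sum_congr rfl fun i _ => Finset.mul_sum _ _ _
      _ ≤ _ := Finset.sum_le_sum fun i _ => Finset.sum_le_sum fun j _ => hpair i j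
  have hX : H / (2 * Real.pi) * Real.log T = H / σ := by rw [hσ]; field_simp
  rw [hX]
  set V : ℝ := q * (m * P) - q * (q + 1) / 2 - ε with hV
  have hVB : V + ε / 2 ≤ B := by rw [hV]; linarith
  rcases le_or_gt V 0 with hV0 | hV0
  · refine le_trans ?_ (Finset.sum_nonneg fun i _ => Finset.sum_nonneg fun j _ =>
      Nat.cast_nonneg _)
    have h1 : 0 ≤ h ^ 2 * ρ * (H / σ) := by positivity
    calc V * h ^ 2 * ρ * (H / σ) = V * (h ^ 2 * ρ * (H / σ)) := by ring
      _ ≤ 0 := mul_nonpos_of_nonpos_of_nonneg hV0 h1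
  · refine le_trans ?_ hsum
    have hB0 : 0 < B := by linarith
    have hBa : |B| = B := abs_of_pos hB0
    rw [hBa] at he1
    have h2 : e * B ≤ ε / 4 := by
      rw [le_div_iff₀ (by positivity)] at he1
      have : 0 ≤ e := he0.le
      nlinarith
    have h3 : V ≤ (1 - e) ^ 2 * B := by
      have h5 : (1 - e) ^ 2 * B = B - 2 * (e * B) + e ^ 2 * B := by ring
      have h6 : 0 ≤ e ^ 2 * B := by positivity
      rw [h5]; linarith
    have h4 : (1 - e) * (H / σ) ≤ M * (J * g) := by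
      rw [mul_div_assoc', div_le_iff₀ hσ0]
      have : (M : ℝ) * (J * g) * σ = M * W := by rw [hW, hw]; ring
      rw [this]; exact hM2
    have he3 : 0 ≤ 1 - e := by linarith
    calc V * h ^ 2 * ρ * (H / σ) ≤ ((1 - e) ^ 2 * B) * h ^ 2 * ρ * (H / σ) := by
          have h1 : 0 ≤ h ^ 2 * ρ * (H / σ) := by positivity
          have := mul_le_mul_of_nonneg_right h3 h1
          linarith
      _ = B * h ^ 2 * (((1 - e) * ρ) * ((1 - e) * (H / σ))) := by ring
      _ ≤ B * h ^ 2 * ((J * g) * (M * (J * g))) := by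
          apply mul_le_mul_of_nonneg_left _ (by positivity)
          exact mul_le_mul hJ2 h4 (mul_nonneg he3 (by positivity)) hJg0.le
      _ = (J * (h * g)) ^ 2 * (B * M) := by ring
      _ ≤ (J * K) ^ 2 * (B * M) := by
          apply mul_le_mul_of_nonneg_right _ (by positivity)
          apply pow_le_pow_left₀ (by positivity)
          exact mul_le_mul_of_nonneg_left hgK hJ0.le

end Pool.Agent.U112.DS
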