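import Pool.Agent.U112.DS.Main
import Pool.Agent.U112.DS.Esymm

/-!
# The tuples of simple critical zeros at some of `m` shifts
-/

open Complex Filter Topology Set MeasureTheory
open scoped BigOperators ComplexConjugate

namespace Pool.Agent.U112.DS

set_option maxHeartbeats 1000000

open H370 Pool.Agent.TH342.CV

/-- the tuples `x i`, `i ∈ S`, of ordinates of simple critical zeros of `F i` in
`(T + b i, T + b i + H]`, with `x i - b i` within less than `ρ` of each other (`x i = 0` outside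
`S`) -/
def Tps {m : ℕ} (S : Finset (Fin m)) (F : Fin m → ℂ → ℂ) (T H : ℝ) (b : Fin m → ℝ) (ρ : ℝ) :
    Set (Fin m → ℝ) :=
  {x | (∀ i ∈ S, T + b i < x i ∧ x i ≤ T + b i + H ∧ SimpleAt (F i) (x i)) ∧
    (∀ i ∉ S, x i = 0) ∧ ∀ i ∈ S, ∀ j ∈ S, |(x i - b i) - (x j - b j)| < ρ}

lemma tps_finite {m : ℕ} (S : Finset (Fin m)) {F : Fin m → ℂ → ℂ} (hF : ∀ i, GoodL (F i))
    {T : ℝ} (H : ℝ) {b : Fin m → ℝ} (hT : 1 ≤ T) (hb : ∀ i, 0 ≤ b i) (ρ : ℝ) :
    (Tps S F T H b ρ).Finite := by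
  classical
  have h : (Set.univ.pi (fun i : Fin m => if i ∈ S then
      {x : ℝ | T + b i < x ∧ x ≤ T + b i + H ∧ SimpleAt (F i) x} else {0})).Finite := by
    apply Set.Finite.pi
    intro i
    split_ifs with h
    · exact simple_finite (hF i) (by linarith [hb i])
    · exact Set.finite_singleton 0
  refine h.subset ?_
  rintro x ⟨h1, h2, -⟩
  rw [Set.mem_univ_pi]
  intro i
  split_ifs with h
  · exact h1 i h
  · exact h2 i h

/-- the tuples in the cells -/
lemma tps_count {m : ℕ} {S : Finset (Fin m)} (hS : S.Nonempty) {F : Fin m → ℂ → ℂ}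
    {T H ρ W : ℝ} {b : Fin m → ℝ} (hW : 0 < W) (M : ℕ) (hM : M * W ≤ H) (hρ : W ≤ ρ)
    (hfin : (Tps S F T H b ρ).Finite) :
    ∑ k ∈ Finset.range M, ∏ i ∈ S, (cnt (F i) (T + b i + k * W) (T + b i + (k + 1) * W) : ℝ) ≤
      ((Tps S F T H b ρ).ncard : ℝ) := by
  classical
  set B : ℕ → Finset (Fin m → ℝ) := fun k => Fintype.piFinset (fun i => if i ∈ S then
    cs (F i) (T + b i + k * W) (T + b i + (k + 1) * W) else {0}) with hB
  have hcard : ∀ k, ((B k).card : ℝ) =
      ∏ i ∈ S, (cnt (F i) (T + b i + k * W) (T + b i + (k + 1) * W) : ℝ) := by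
    intro k
    simp only [hB, Fintype.card_piFinset]
    push_cast
    rw [← Finset.prod_subset (Finset.subset_univ S)]
    · apply Finset.prod_congr rfl
      intro i hi
      rw [if_pos hi, cs_card]
    · intro i _ hi
      rw [if_neg hi, Finset.card_singleton]
      simp
  obtain ⟨i0, hi0⟩ := hS
  have hmem : ∀ k, ∀ x ∈ B k, (∀ i ∈ S, x i ∈ cs (F i) (T + b i + k * W)
      (T + b i + (k + 1) * W)) ∧ ∀ i ∉ S, x i = 0 := by
    intro k x hx
    rw [hB, Fintype.mem_piFinset] at hx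
    constructor
    · intro i hi
      have := hx i
      rwa [if_pos hi] at this
    · intro i hi
      have := hx i
      rwa [if_neg hi, Finset.mem_singleton] at this
  have hdisj : ∀ k ∈ Finset.range M, ∀ l ∈ Finset.range M, k ≠ l → Disjoint (B k) (B l) := by
    intro k _ l _ hkl
    rw [Finset.disjoint_left]
    rintro z hz1 hz2
    obtain ⟨a1, a2, -⟩ := cs_mem ((hmem k z hz1).1 i0 hi0)
    obtain ⟨b1, b2, -⟩ := cs_mem ((hmem l z hz2).1 i0 hi0)
    rcases lt_or_gt_of_ne hkl with h | h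
    · have h6 : (k : ℝ) + 1 ≤ l := by exact_mod_cast h
      have := mul_le_mul_of_nonneg_right h6 hW.le
      linarith
    · have h6 : (l : ℝ) + 1 ≤ k := by exact_mod_cast h
      have := mul_le_mul_of_nonneg_right h6 hW.le
      linarith
  have h1 : ∑ k ∈ Finset.range M,
      ∏ i ∈ S, (cnt (F i) (T + b i + k * W) (T + b i + (k + 1) * W) : ℝ) =
      (((Finset.range M).biUnion B).card : ℝ) := by
    rw [Finset.card_biUnion hdisj]
    push_cast
    exact Finset.sum_congr rfl fun k _ => (hcard k).symm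
  rw [h1, ← Set.ncard_coe_finset]
  have hsub : (((Finset.range M).biUnion B : Finset (Fin m → ℝ)) : Set (Fin m → ℝ)) ⊆
      Tps S F T H b ρ := by
    intro z hz
    rw [Finset.mem_coe, Finset.mem_biUnion] at hz
    obtain ⟨k, hk, hz⟩ := hz
    rw [Finset.mem_range] at hk
    obtain ⟨hz1, hz2⟩ := hmem k z hz
    have hk1 : (k : ℝ) + 1 ≤ M := by exact_mod_cast hk
    have hk2 := mul_le_mul_of_nonneg_right hk1 hW.le
    have hk3 : ((k : ℝ) + 1) * W = k * W + W := by ring
    have hk0 : 0 ≤ (k : ℝ) * W := by positivity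
    refine ⟨fun i hi => ?_, hz2, fun i hi j hj => ?_⟩
    · obtain ⟨a1, a2, a3⟩ := cs_mem (hz1 i hi)
      exact ⟨by linarith, by linarith, a3⟩
    · obtain ⟨a1, a2, -⟩ := cs_mem (hz1 i hi)
      obtain ⟨b1, b2, -⟩ := cs_mem (hz1 j hj)
      rw [abs_lt]
      constructor <;> linarith
  exact_mod_cast Set.ncard_le_ncard hsub hfin

/-- the tuples at `r + 1` of `m` shifts -/
theorem tuples_m (m r q : ℕ) {h ε : ℝ} (hh : 0 < h) (hh1 : h ≤ 1) (hε : 0 < ε) :
    ∃ L d : ℝ, 0 < L ∧ 0 < d ∧ ∀ F : Fin m → ℂ → ℂ, (∀ i, GoodL (F i)) → ∃ T0 : ℝ, 10 ≤ T0 ∧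
      ∀ T : ℝ, T0 ≤ T → ∀ H : ℝ, T ^ h ≤ H → H ≤ T → ∀ b : Fin m → ℝ,
      (∀ i, 0 ≤ b i ∧ b i ≤ T ^ (1 + d)) → ∀ ρ : ℝ, L ≤ ρ →
      ρ * (2 * Real.pi / Real.log T) ≤ d * H →
      (q.choose (r + 1) + (m * ((2 - H295Iso.c0 h) / h) - q) * q.choose r - ε) * h ^ (r + 1) *
        ρ ^ r * (H / (2 * Real.pi) * Real.log T) ≤
        ∑ S ∈ (Finset.univ : Finset (Fin m)).powersetCard (r + 1),
          ((Tps S F T H b (ρ * (2 * Real.pi / Real.log T))).ncard : ℝ) := by
  classical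
  have hpi := Real.pi_pos
  set P : ℝ := (2 - H295Iso.c0 h) / h with hP
  set ε1 : ℝ := ε / (4 * (m * q.choose r + 1)) with hε1
  have hqm : (0 : ℝ) ≤ m * q.choose r := by positivity
  have hε10 : 0 < ε1 := by positivity
  have hε11 : (m * q.choose r) * ε1 ≤ ε / 2 := by
    rw [hε1, mul_div_assoc', div_le_div_iff₀ (by positivity) (by norm_num)]
    have : 0 ≤ ε * (m * q.choose r) := by positivity
    linarith
  obtain ⟨g, K, d, hg, hgK, hd, hdh, hcore⟩ := avg_unit hh hh1 hε10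
  have hK : 0 < K := lt_of_lt_of_le (by positivity) hgK
  set B : ℝ := q.choose (r + 1) + (m * (P - ε1) - q) * q.choose r with hB
  have hBv : q.choose (r + 1) + (m * P - q) * q.choose r - ε / 2 ≤ B := by
    have : B = q.choose (r + 1) + (m * P - q) * q.choose r - (m * q.choose r) * ε1 := by
      rw [hB]; ring
    rw [this]; linarith
  -- the choice of `e`
  obtain ⟨e, he0, he2, heB⟩ : ∃ e : ℝ, 0 < e ∧ e ≤ 1 / 2 ∧ B - ε / 2 ≤ (1 - e) ^ (r + 1) * B := by
    have hc : Continuous (fun e : ℝ => (1 - e) ^ (r + 1) * B) := by fun_prop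
    have h1 : ∀ᶠ x : ℝ in 𝓝[>] 0, B - ε / 2 < (1 - x) ^ (r + 1) * B :=
      nhdsWithin_le_nhds (hc.continuousAt.eventually (lt_mem_nhds (by simp; linarith)))
    have e1 : ∀ᶠ x : ℝ in 𝓝[>] 0, 0 < x := self_mem_nhdsWithin
    have e2 : ∀ᶠ x : ℝ in 𝓝[>] 0, x < 1 / 2 := nhdsWithin_le_nhds (gt_mem_nhds (by norm_num))
    obtain ⟨e, ⟨h3, h4⟩, h5⟩ := ((e1.and e2).and h1).exists
    exact ⟨e, h3, h4.le, h5.le⟩
  refine ⟨g / e, min d e, by positivity, lt_min hd he0, fun F hF => ?_⟩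
  choose T1 hT1 hc using fun i => hcore (F i) (hF i)
  obtain ⟨T2, hT2, hl⟩ := large (h := h) (d := d) (g := g) (e := e) hd hh he0 hg
  set TS : ℝ := ∑ i, T1 i with hTS
  refine ⟨max TS T2, hT2.trans (le_max_right _ _), fun T hT H hH1 hH2 b hb ρ hρ1 hρ2 => ?_⟩
  have hTi : ∀ i, T1 i ≤ T := by
    intro i
    refine le_trans ?_ ((le_max_left _ _).trans hT)
    exact Finset.single_le_sum (f := T1) (fun j _ => by linarith [hT1 j]) (Finset.mem_univ i)
  obtain ⟨hlog, hTd, hw1⟩ := hl T ((le_max_right _ _).trans hT)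
  have hT10 : 10 ≤ T := hT2.trans ((le_max_right _ _).trans hT)
  have hT0 : 0 < T := by linarith
  have hlog0 : 0 < Real.log T := by linarith
  set σ : ℝ := 2 * Real.pi / Real.log T with hσ
  have hσ0 : 0 < σ := by positivity
  set w : ℝ := g * σ with hw
  have hw0 : 0 < w := by positivity
  have hH0 : 0 < H := (Real.rpow_pos_of_pos hT0 _).trans_le hH1
  have hρ0 : 0 < ρ := lt_of_lt_of_le (by positivity) hρ1
  have hge : g ≤ e * ρ := by
    rw [div_le_iff₀ he0] at hρ1
    linarith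
  -- the blocks
  set J : ℕ := ⌊ρ / g⌋₊ with hJ
  have hJ1 : (J : ℝ) * g ≤ ρ := by
    have := Nat.floor_le (by positivity : 0 ≤ ρ / g)
    rwa [le_div_iff₀ hg] at this
  have hJ2 : (1 - e) * ρ ≤ J * g := by
    have h1 := Nat.lt_floor_add_one (ρ / g)
    rw [div_lt_iff₀ hg] at h1
    have h2 : ((J : ℝ) + 1) * g = J * g + g := by ring
    have h3 : (1 - e) * ρ = ρ - e * ρ := by ring
    rw [h3]
    rw [← hJ] at h1
    linarith
  have hJg0 : 0 < (J : ℝ) * g := lt_of_lt_of_le (mul_pos (by linarith) hρ0) hJ2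
  have hJpos : 0 < J := by
    rcases Nat.eq_zero_or_pos J with h9 | h9
    · rw [h9] at hJg0
      simp at hJg0
    · exact h9
  have hJ0 : (0 : ℝ) < J := by exact_mod_cast hJpos
  set W : ℝ := J * w with hW
  have hW0 : 0 < W := by positivity
  have hWρ : W ≤ ρ * σ := by
    have : W = J * g * σ := by rw [hW, hw]; ring
    rw [this]
    exact mul_le_mul_of_nonneg_right hJ1 hσ0.le
  have hWH : W ≤ e * H := by
    refine hWρ.trans (hρ2.trans (mul_le_mul_of_nonneg_right (min_le_right _ _) hH0.le))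
  obtain ⟨M, hM1, hM2⟩ := blocks_number hW0 hH0 hWH
  have hMh : H / 2 ≤ M * W := by
    refine le_trans ?_ hM2
    have : e * H ≤ 1 / 2 * H := mul_le_mul_of_nonneg_right he2 hH0.le
    linarith
  have hMW : ((M * J : ℕ) : ℝ) * w = M * W := by rw [hW]; push_cast; ring
  have hNT := half_pow hT0 hTd hH1 hMh
  set f : Fin m → ℕ → ℝ := fun i c => fr (F i) (T + b i) w K J c with hf
  have hfa : ∀ i, (P - ε1) * M ≤ ∑ c ∈ Finset.range M, f i c := by
    intro i
    apply fr_avg hK hJpos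
    refine hc i T (hTi i) (b i) (hb i).1 ((hb i).2.trans ?_) (M * J) ?_ ?_
    · exact Real.rpow_le_rpow_of_exponent_le (by linarith) (by linarith [min_le_left d e])
    · rw [hMW]; exact hNT
    · rw [hMW]; exact hM1.trans hH2
  have hmain := tuples_seq M f (fun i c => fr_nonneg _ _ _ hK J c)
    (fun i c => fr_le_one _ _ _ hK hJpos c) hfa r q
  -- the number of tuples
  have htup : ∀ S ∈ (Finset.univ : Finset (Fin m)).powersetCard (r + 1),
      (J * K) ^ (r + 1) * ∑ c ∈ Finset.range M, ∏ i ∈ S, f i c ≤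
      ((Tps S F T H b (ρ * σ)).ncard : ℝ) := by
    intro S hS
    rw [Finset.mem_powersetCard] at hS
    have hSn : S.Nonempty := Finset.card_pos.mp (by omega)
    have h1 := tps_count (S := S) (F := F) (T := T) (H := H) (ρ := ρ * σ) (b := b) hSn hW0 M hM1
      hWρ (tps_finite S hF H (by linarith) (fun i => (hb i).1) _)
    refine le_trans ?_ h1
    rw [Finset.mul_sum]
    apply Finset.sum_le_sum
    intro c _
    rw [← hS.2, ← Finset.prod_const, ← Finset.prod_mul_distrib]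
    apply Finset.prod_le_prod
    · intro i _
      exact mul_nonneg (by positivity) (fr_nonneg _ _ _ hK J c)
    · intro i _
      exact fr_cnt (hF i) (A := T + b i) (w := w) (K := K) (by linarith [(hb i).1]) hw0 hK hJpos c
  have hsum : (J * K) ^ (r + 1) * (B * M) ≤
      ∑ S ∈ (Finset.univ : Finset (Fin m)).powersetCard (r + 1),
        ((Tps S F T H b (ρ * σ)).ncard : ℝ) := by
    calc (J * K) ^ (r + 1) * (B * M) ≤ (J * K) ^ (r + 1) *
          ∑ S ∈ (Finset.univ : Finset (Fin m)).powersetCard (r + 1),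
          ∑ c ∈ Finset.range M, ∏ i ∈ S, f i c :=
          mul_le_mul_of_nonneg_left hmain (by positivity)
      _ = ∑ S ∈ (Finset.univ : Finset (Fin m)).powersetCard (r + 1), (J * K) ^ (r + 1) *
          ∑ c ∈ Finset.range M, ∏ i ∈ S, f i c := Finset.mul_sum _ _ _
      _ ≤ _ := Finset.sum_le_sum htup
  have hX : H / (2 * Real.pi) * Real.log T = H / σ := by rw [hσ]; field_simp
  rw [hX]
  set V : ℝ := q.choose (r + 1) + (m * P - q) * q.choose r - ε with hV
  have hVB : V + ε / 2 ≤ B := by rw [hV]; linarith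
  rcases le_or_gt V 0 with hV0 | hV0
  · refine le_trans ?_ (Finset.sum_nonneg fun S _ => Nat.cast_nonneg _)
    have h1 : 0 ≤ h ^ (r + 1) * ρ ^ r * (H / σ) := by positivity
    calc V * h ^ (r + 1) * ρ ^ r * (H / σ) = V * (h ^ (r + 1) * ρ ^ r * (H / σ)) := by ring
      _ ≤ 0 := mul_nonpos_of_nonpos_of_nonneg hV0 h1
  · refine le_trans ?_ hsum
    have hB0 : 0 < B := by linarith
    have h3 : V ≤ (1 - e) ^ (r + 1) * B := by linarith
    have h4 : (1 - e) * (H / σ) ≤ M * (J * g) := by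
      rw [mul_div_assoc', div_le_iff₀ hσ0]
      have : (M : ℝ) * (J * g) * σ = M * W := by rw [hW, hw]; ring
      rw [this]; exact hM2
    have he3 : 0 ≤ 1 - e := by linarith
    have h5 : ((1 - e) * ρ) ^ r ≤ (J * g) ^ r := pow_le_pow_left₀ (mul_nonneg he3 hρ0.le) hJ2 r
    calc V * h ^ (r + 1) * ρ ^ r * (H / σ) ≤
          ((1 - e) ^ (r + 1) * B) * h ^ (r + 1) * ρ ^ r * (H / σ) := by
          have h1 : 0 ≤ h ^ (r + 1) * ρ ^ r * (H / σ) := by positivity
          have := mul_le_mul_of_nonneg_right h3 h1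
          linarith
      _ = B * h ^ (r + 1) * (((1 - e) * ρ) ^ r * ((1 - e) * (H / σ))) := by
          rw [mul_pow]; ring
      _ ≤ B * h ^ (r + 1) * ((J * g) ^ r * (M * (J * g))) := by
          apply mul_le_mul_of_nonneg_left _ (by positivity)
          exact mul_le_mul h5 h4 (mul_nonneg he3 (by positivity)) (pow_nonneg hJg0.le r)
      _ = (J * (h * g)) ^ (r + 1) * (B * M) := by
          rw [mul_pow, mul_pow, mul_pow, pow_succ (J : ℝ), pow_succ g]; ring
      _ ≤ (J * K) ^ (r + 1) * (B * M) := by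
          apply mul_le_mul_of_nonneg_right _ (by positivity)
          apply pow_le_pow_left₀ (by positivity)
          exact mul_le_mul_of_nonneg_left hgK hJ0.le

end Pool.Agent.U112.DS
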